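import Mathlib
import Pool.Agent.Results.MP_0256c3_gt.NotSuperadic
import Pool.Agent.Y568.SC.Ary

set_option autoImplicit false

open Set Topology

universe u

namespace Pool.Agent.Results.MP_0256c3_gt.FiniteCompactnessNumber

open Pool.Agent.Results.MP_0256c3_gt.NotSuperadic Pool.Agent.Y568.SC

/-- `K` is a continuous image of a space (Hausdorff or not) which has an `N`-ary closed subbase,
that is, of a space of compactness number at most `N`. -/
def ImageOfAry (N : ℕ) (K : Type) [TopologicalSpace K] : Prop :=
  ∃ (S : Type u) (_ : TopologicalSpace S) (P : Set (Set S)) (f : S → K),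
    IsClosedSubbase P ∧ IsAry N P ∧ Continuous f ∧ Function.Surjective f

/-- **Eberlein compact spaces are not continuous images of spaces of finite compactness number.**

1. For every `N ≥ 1` there is a closed set `K` of characteristic functions of sets with at most
   `N + 1` elements (so `K` is a uniform Eberlein compact space), which is not a continuous image
   of any space with an `N`-ary closed subbase.
2. There is an Eberlein compact space `K`, a closed set of characteristic functions of finite sets,
   which is not a continuous image of any space with an `N`-ary closed subbase, for any `N`.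
3. In particular it is not a continuous image of any supercompact space. -/
theorem result :
    (∀ N : ℕ, 1 ≤ N → ∃ (Γ : Type) (K : Set (Γ → Bool)), IsClosed K ∧
      (∀ x ∈ K, {i | x i = true}.Finite ∧ {i | x i = true}.ncard ≤ N + 1) ∧
      EberleinCompact K ∧ ¬ ImageOfAry.{u} N K) ∧
    ∃ (Γ : Type) (K : Set (Γ → Bool)), IsClosed K ∧ (∀ x ∈ K, {i | x i = true}.Finite) ∧
      EberleinCompact K ∧ (∀ N : ℕ, ¬ ImageOfAry.{u} N K) ∧
      ∀ (S : Type u) [TopologicalSpace S], Supercompact S →
        ¬ ∃ f : S → K, Continuous f ∧ Function.Surjective f := by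
  refine ⟨fun N hN => ⟨Gam N ℝ, KSet N ℝ, isClosed_KSet N ℝ, fun x hx => supp N ℝ hx,
    eberlein_of_finite _ fun x hx => (supp N ℝ hx).1, ?_⟩, ?_⟩
  · rintro ⟨S, _, P, f, h1, h2, h3, h4⟩
    exact not_image hN h1 h2 f h3 h4
  · have main : ∀ N : ℕ, ¬ ImageOfAry.{u} N (KOmega ℝ) := by
      rintro N ⟨S, _, P, f, h1, h2, h3, h4⟩
      exact not_image (Nat.succ_pos N) h1 h2.succ (ret ℝ N ∘ f) ((ret_continuous ℝ N).comp h3)
        ((ret_surjective ℝ N).comp h4)
    refine ⟨GamO ℝ, KOmega ℝ, isClosed_KOmega ℝ, fun x hx => supp_omega ℝ hx,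
      eberlein_of_finite _ fun x hx => supp_omega ℝ hx, main, ?_⟩
    rintro S _ ⟨P, h1, h2⟩ ⟨f, h3, h4⟩
    exact main 2 ⟨S, inferInstance, P, f, h1, isAry_two h2, h3, h4⟩

end Pool.Agent.Results.MP_0256c3_gt.FiniteCompactnessNumber
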